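import Pool.Agent.Q44.PE.Stm

/-!
# Project PE (helper44): the composition of two morphisms
-/

set_option autoImplicit false

namespace Pool.Agent.Q129.PE.CO

open MvPolynomial Pool.Agent.Q44.SA Pool.Agent.Q44.PG Pool.Agent.Q44.PE Pool.Agent.Q190.SA

variable {K : Type} [Field K] {n : ℕ} {I : Ideal (MvPolynomial (Fin n) K)}

/-- a positive form vanishes at zero -/
theorem eval_zero {F : Type} [Field F] (σ : K →+* F) {p : MvPolynomial (Fin n) K} {d : ℕ} (hp : p.IsHomogeneous d)
    (hd : 0 < d) : eval₂ σ (0 : Fin n → F) p = 0 := by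
  have h := eval2_smul σ hp (0 : F) (0 : Fin n → F)
  rw [zero_smul, zero_pow hd.ne', zero_mul] at h
  exact h

/-- the values of the composed forms are proportional -/
theorem agree_comp (φ φ' : Mor I) {F : Type} [Field F] (σ : K →+* F) (x : Fin n → F) (hx : x ≠ 0 → Pt σ I x)
    (l m : Fin φ.p) (l' m' : Fin φ'.p) (a b : Fin n) :
    eval₂ σ x (bind₁ (φ.F l) (φ'.F l' a)) * eval₂ σ x (bind₁ (φ.F m) (φ'.F m' b)) =
      eval₂ σ x (bind₁ (φ.F l) (φ'.F l' b)) * eval₂ σ x (bind₁ (φ.F m) (φ'.F m' a)) := by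
  rw [bind_at, bind_at, bind_at, bind_at]
  set u : Fin n → F := fun i => eval₂ σ x (φ.F l i) with hu
  set v : Fin n → F := fun i => eval₂ σ x (φ.F m i) with hv
  by_cases h0 : u = 0
  · rw [h0, eval_zero σ (φ'.hom l' a) (φ'.pos l'), eval_zero σ (φ'.hom l' b) (φ'.pos l')]
    ring
  by_cases h1 : v = 0
  · rw [h1, eval_zero σ (φ'.hom m' a) (φ'.pos m'), eval_zero σ (φ'.hom m' b) (φ'.pos m')]
    ring
  have hx0 : x ≠ 0 := by
    intro h
    apply h0
    funext i
    rw [hu]
    simp only [Pi.zero_apply]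
    rw [h, eval_zero σ (φ.hom l i) (φ.pos l)]
  have hpx := hx hx0
  obtain ⟨j, hj⟩ := Function.ne_iff.1 h1
  have hj' : v j ≠ 0 := hj
  have huv : u = (u j / v j) • v := by
    funext i
    rw [Pi.smul_apply, smul_eq_mul]
    have h2 : u i * v j = u j * v i := agree_at φ σ hpx l m i j
    field_simp
    linear_combination h2
  have hpv : Pt σ I v := by
    refine ⟨h1, fun f hf => ?_⟩
    rw [hv, ← bind_at]
    exact hpx.2 _ (φ.into m f hf)
  rw [huv, eval2_smul σ (φ'.hom l' a), eval2_smul σ (φ'.hom l' b)]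
  have h3 := agree_at φ' σ hpv l' m' a b
  linear_combination (u j / v j) ^ φ'.d l' * h3

/-- an element of the polynomial ring is in the prime ideal if it vanishes at the generic point -/
theorem generic (hI : I.IsPrime) : ∃ (F : Type) (_ : Field F) (σ : K →+* F) (x : Fin n → F),
    ∀ f : MvPolynomial (Fin n) K, eval₂ σ x f = 0 ↔ f ∈ I := by
  have := hI
  refine ⟨FractionRing (MvPolynomial (Fin n) K ⧸ I), inferInstance,
    ((algebraMap (MvPolynomial (Fin n) K ⧸ I) (FractionRing (MvPolynomial (Fin n) K ⧸ I))).comp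
      (Ideal.Quotient.mk I)).comp C,
    fun i => algebraMap _ _ (Ideal.Quotient.mk I (X i)), fun f => ?_⟩
  have h : eval₂ (((algebraMap (MvPolynomial (Fin n) K ⧸ I) (FractionRing (MvPolynomial (Fin n) K ⧸ I))).comp
      (Ideal.Quotient.mk I)).comp C) (fun i => algebraMap _ _ (Ideal.Quotient.mk I (X i))) f =
      algebraMap (MvPolynomial (Fin n) K ⧸ I) (FractionRing (MvPolynomial (Fin n) K ⧸ I)) (Ideal.Quotient.mk I f) := by
    have h1 := eval₂_comp_left ((algebraMap (MvPolynomial (Fin n) K ⧸ I)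
      (FractionRing (MvPolynomial (Fin n) K ⧸ I))).comp (Ideal.Quotient.mk I)) (C : K →+* MvPolynomial (Fin n) K) X f
    rw [eval₂_eta] at h1
    exact h1.symm
  rw [h, map_eq_zero_iff _ (IsFractionRing.injective _ _), Ideal.Quotient.eq_zero_iff_mem]

/-- the composition -/
noncomputable def comp (hI : I.IsPrime) (φ φ' : Mor I) : Mor I where
  p := φ.p * φ'.p
  d := fun l => φ.d (finProdFinEquiv.symm l).1 * φ'.d (finProdFinEquiv.symm l).2
  F := fun l a => bind₁ (φ.F (finProdFinEquiv.symm l).1) (φ'.F (finProdFinEquiv.symm l).2 a)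
  pos := fun l => Nat.mul_pos (φ.pos _) (φ'.pos _)
  hom := fun l a => (φ'.hom _ a).aeval _ (fun i => φ.hom _ i)
  base := by
    intro k
    set J : Ideal (MvPolynomial (Fin n) K) := I ⊔ Ideal.span {g | ∃ (l : Fin (φ.p * φ'.p)) (a : Fin n),
      g = bind₁ (φ.F (finProdFinEquiv.symm l).1) (φ'.F (finProdFinEquiv.symm l).2 a)} with hJ
    have h1 : ∀ l a, φ.F l a ∈ J.radical := by
      intro l a
      obtain ⟨N, hN⟩ := Ideal.mem_radical_iff.1 (φ'.base a)
      have h2 : I ⊔ Ideal.span {g | ∃ l a, g = φ'.F l a} ≤ J.comap (bind₁ (φ.F l)).toRingHom := by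
        refine sup_le (fun f hf => ?_) (Ideal.span_le.2 ?_)
        · rw [Ideal.mem_comap]
          exact (le_sup_left : I ≤ J) (φ.into l f hf)
        · rintro g ⟨l', b, rfl⟩
          show φ'.F l' b ∈ J.comap (bind₁ (φ.F l)).toRingHom
          rw [Ideal.mem_comap]
          apply (le_sup_right : _ ≤ J)
          apply Ideal.subset_span
          refine ⟨finProdFinEquiv (l, l'), b, ?_⟩
          rw [Equiv.symm_apply_apply]
          rfl
      have h3 := h2 hN
      rw [Ideal.mem_comap, map_pow] at h3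
      refine Ideal.mem_radical_iff.2 ⟨N, ?_⟩
      have e : (bind₁ (φ.F l)).toRingHom (X a) = φ.F l a := bind₁_X_right _ _
      rwa [e] at h3
    have h4 : I ⊔ Ideal.span {g | ∃ l a, g = φ.F l a} ≤ J.radical := by
      refine sup_le (fun f hf => ?_) (Ideal.span_le.2 ?_)
      · exact Ideal.le_radical ((le_sup_left : I ≤ J) hf)
      · rintro g ⟨l, a, rfl⟩
        exact h1 l a
    have h5 := Ideal.radical_mono h4 (φ.base k)
    rwa [Ideal.radical_idem] at h5
  agree := by
    intro l l' a b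
    obtain ⟨F, _, σ, x, hx⟩ := generic hI
    rw [← hx, ← coe_eval₂Hom, map_sub, map_mul, map_mul, sub_eq_zero]
    exact agree_comp φ φ' σ x (fun h0 => ⟨h0, fun f hf => (hx f).2 hf⟩) _ _ _ _ a b
  into := by
    intro l f hf
    rw [← bind₁_bind₁]
    exact φ.into _ _ (φ'.into _ f hf)

theorem main : E_comp := by
  intro K _ n I hI _ φ φ'
  refine ⟨comp hI φ φ', ?_⟩
  intro F _ σ x y z _ h h'
  obtain ⟨l, ⟨a, ha⟩, c, hc, hy⟩ := h
  obtain ⟨l', ⟨b, hb⟩, c', hc', hz⟩ := h'
  have hyu : y = c • (fun i => eval₂ σ x (φ.F l i)) := by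
    funext i
    rw [Pi.smul_apply, smul_eq_mul]
    exact hy i
  have key : ∀ i, eval₂ σ y (φ'.F l' i) =
      c ^ φ'.d l' * eval₂ σ x ((comp hI φ φ').F (finProdFinEquiv (l, l')) i) := by
    intro i
    show eval₂ σ y (φ'.F l' i) = c ^ φ'.d l' * eval₂ σ x (bind₁ (φ.F (finProdFinEquiv.symm
      (finProdFinEquiv (l, l'))).1) (φ'.F (finProdFinEquiv.symm (finProdFinEquiv (l, l'))).2 i))
    rw [Equiv.symm_apply_apply, bind_at, hyu, eval2_smul σ (φ'.hom l' i)]
  refine ⟨finProdFinEquiv (l, l'), ⟨b, ?_⟩, c' * c ^ φ'.d l', mul_ne_zero hc' (pow_ne_zero _ hc), fun i => ?_⟩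
  · intro h0
    apply hb
    rw [key b, h0, mul_zero]
  · rw [hz i, key i, mul_assoc]

end Pool.Agent.Q129.PE.CO
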